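import Pool.Agent.Helper44.GN.Defs

open Finset MeasureTheory Filter Topology Matrix
open scoped ENNReal ContDiff

namespace Pool.Agent.Helper44.GN

open Pool.Agent.Helper44.GF

theorem st_CAL : ST_CAL := by
  intro Λ Λ' H h T hT hΛ hΛ0 hH hH0 hi
  have hd : ∀ t, 0 < t → t ≤ T →
      HasDerivAt (fun t => Λ t / t - H t) ((Λ' t * t - Λ t * 1) / t ^ 2 - h t) t := by
    intro t ht htT
    exact ((hΛ t).div (hasDerivAt_id t) ht.ne').sub (hH t ⟨ht.le, htT⟩)
  have hanti : ∀ s, 0 < s → s < T → Λ T / T - H T ≤ Λ s / s - H s := by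
    intro s hs hsT
    have hA : AntitoneOn (fun t => Λ t / t - H t) (Set.Icc s T) := by
      apply antitoneOn_of_deriv_nonpos (convex_Icc s T)
      · intro t ht
        exact (hd t (by linarith [ht.1]) ht.2).continuousAt.continuousWithinAt
      · intro t ht
        rw [interior_Icc] at ht
        exact (hd t (by linarith [ht.1]) ht.2.le).differentiableAt.differentiableWithinAt
      · intro t ht
        rw [interior_Icc] at ht
        have ht0 : 0 < t := by linarith [ht.1]
        rw [(hd t ht0 ht.2.le).deriv]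
        have h1 := hi t ht0 ht.2.le
        have h2 : (Λ' t * t - Λ t * 1) / t ^ 2 ≤ h t := by
          rw [div_le_iff₀ (by positivity)]
          linarith
        linarith
    exact hA ⟨le_rfl, hsT.le⟩ ⟨hsT.le, le_rfl⟩ hsT.le
  have ht1 : Tendsto (fun s => Λ s / s) (𝓝[>] 0) (𝓝 (Λ' 0)) := by
    have h1 := (hasDerivAt_iff_tendsto_slope.1 (hΛ 0)).mono_left
      (nhdsWithin_mono (0 : ℝ) (fun x (hx : x ∈ Set.Ioi (0 : ℝ)) => (ne_of_gt hx)))
    refine h1.congr fun s => ?_
    rw [slope_def_field, hΛ0, sub_zero, sub_zero]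
  have ht2 : Tendsto H (𝓝[>] 0) (𝓝 0) := by
    have h1 := (hH 0 ⟨le_rfl, hT.le⟩).continuousAt.tendsto
    rw [hH0] at h1
    exact h1.mono_left nhdsWithin_le_nhds
  have ht3 := ht1.sub ht2
  rw [sub_zero] at ht3
  have h1 : Λ T / T - H T ≤ Λ' 0 := by
    refine ge_of_tendsto ht3 ?_
    filter_upwards [Ioo_mem_nhdsGT hT] with s hs
    exact hanti s hs.1 hs.2
  have h2 : Λ T / T ≤ Λ' 0 + H T := by linarith
  rw [div_le_iff₀ hT] at h2
  linarith

end Pool.Agent.Helper44.GN
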