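import Pool.Agent.Helper44.GN.Defs
import Pool.Agent.Helper44.GF.MAIN

open Finset MeasureTheory Filter Topology Matrix
open scoped ENNReal ContDiff

namespace Pool.Agent.Helper44.GN

open Pool.Agent.Helper44.GF

theorem covr_qf {n m : ℕ} (V : Matrix (Fin n) (Fin m) ℝ) (hV : Function.Injective V.mulVec)
    (R : Fin n → ℝ) (hR : R ∈ Og n) : 0 < qf V R := by
  have h1 : (Matrix.diagonal R).PosDef := Matrix.PosDef.diagonal fun x => hR x
  have h2 := h1.conjTranspose_mul_mul_same hV
  rw [Matrix.conjTranspose_eq_transpose_of_trivial] at h2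
  exact h2.det_pos

theorem st_COVR (hE : ST_EXT) (hM : ST_MAPF) (hC : Pool.Agent.Helper44.GF.ST_COVER) :
    ST_COVR := by
  intro m n K F θ hθ hcyc R hR i
  set V := (F i).mat with hV
  have hinj : Function.Injective V.mulVec := main_injective (F i)
  have hq : 0 < qf V R := covr_qf V hinj R hR
  have hB : LinearIndependent ℝ (fun k => (Vᵀ * Matrix.diagonal R) k) := by
    rw [Fintype.linearIndependent_iff]
    intro c hc
    have h1 : c ᵥ* (Vᵀ * Matrix.diagonal R) = 0 := by
      rw [Matrix.vecMul_eq_sum]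
      exact hc
    have h2 : c ᵥ* TT V V R = 0 := by
      unfold TT
      rw [← Matrix.vecMul_vecMul, h1, Matrix.zero_vecMul]
    have h3 := Matrix.eq_zero_of_vecMul_eq_zero hq.ne' h2
    intro k
    rw [h3]; rfl
  obtain ⟨A, f, hf, hA, hAB⟩ := hE (m + 1) n (Vᵀ * Matrix.diagonal R) hB
  obtain ⟨F', hcyc', hdom, hmat⟩ := hM m n K A hA F θ hcyc
  have hsub : ∀ j, (F' j).mat.submatrix f id = TT V (F j).mat R := by
    intro j
    rw [hmat j]
    ext a b
    unfold TT
    simp only [Matrix.submatrix_apply, id]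
    rw [Matrix.mul_apply, Matrix.mul_apply]
    refine Finset.sum_congr rfl fun k _ => ?_
    rw [hAB a k]
  have hdet : ((F' i).mat.submatrix f id).det ≠ 0 := by
    rw [hsub i]
    exact hq.ne'
  have h1 := hC m n K F' θ hθ hcyc' f i hdet
  rw [hdom i] at h1
  have h2 := mul_le_mul_of_nonneg_left h1 hq.le
  refine h2.trans (le_of_eq ?_)
  rw [Finset.mul_sum]
  refine Finset.sum_congr rfl fun j _ => ?_
  rw [hsub i, hsub j, hdom j, ← mul_assoc, abs_div]
  congr 1
  have h3 : |(TT V (F i).mat R).det| = qf V R := abs_of_pos hq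
  rw [h3, mul_div_cancel₀ _ hq.ne']

end Pool.Agent.Helper44.GN
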