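import Pool.Agent.Helper44.GN.Defs

open Finset MeasureTheory Filter Topology Matrix
open scoped ENNReal ContDiff

namespace Pool.Agent.Helper44.GN

open Pool.Agent.Helper44.GF

theorem dv_compact (n : ℕ) (δ : ℝ) : IsCompact (Bx n δ) :=
  isCompact_univ_pi fun _ => isCompact_Icc

theorem dv_vol (n : ℕ) (δ : ℝ) (hδ : δ < 1) : 0 < volume (Bx n δ) := by
  unfold Bx
  rw [MeasureTheory.volume_pi_pi]
  simp only [Real.volume_Icc, Finset.prod_const]
  apply pos_iff_ne_zero.2
  apply pow_ne_zero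
  simp [hδ]

theorem dv_int {n : ℕ} {δ : ℝ} {f : (Fin n → ℝ) → ℝ} (hf : ContinuousOn f (Bx n δ)) :
    IntegrableOn f (Bx n δ) := hf.integrableOn_compact (dv_compact n δ)

theorem dv_pos {n : ℕ} {δ : ℝ} (hδ : δ < 1) {f : (Fin n → ℝ) → ℝ}
    (hf : ContinuousOn f (Bx n δ)) (h0 : ∀ z ∈ Bx n δ, 0 < f z) : 0 < ∫ z in Bx n δ, f z := by
  rw [setIntegral_pos_iff_support_of_nonneg_ae _ (dv_int hf)]
  · have h1 : Function.support f ∩ Bx n δ = Bx n δ :=
      Set.inter_eq_right.2 fun z hz => (h0 z hz).ne'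
    rw [h1]
    exact dv_vol n δ hδ
  · filter_upwards [ae_restrict_mem (dv_compact n δ).isClosed.measurableSet] with z hz
    exact (h0 z hz).le

theorem st_DV : ST_DV := by
  intro n δ ρ F G hρ hF hG
  have hexpF : ContinuousOn (fun z => Real.exp (F z)) (Bx n δ) := Real.continuous_exp.comp_continuousOn hF
  have hexpG : ContinuousOn (fun z => Real.exp (G z)) (Bx n δ) := Real.continuous_exp.comp_continuousOn hG
  have hA : 0 < IB δ ρ (fun z => Real.exp (F z)) :=
    dv_pos hρ.d1 (hexpF.mul hρ.rc) fun z hz => mul_pos (Real.exp_pos _) (hρ.r0 z hz)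
  have hB : 0 < IB δ ρ (fun z => Real.exp (G z)) :=
    dv_pos hρ.d1 (hexpG.mul hρ.rc) fun z hz => mul_pos (Real.exp_pos _) (hρ.r0 z hz)
  have hI : 0 < IB δ ρ (fun _ => 1) :=
    dv_pos hρ.d1 (continuousOn_const.mul hρ.rc) fun z hz => mul_pos one_pos (hρ.r0 z hz)
  set A := IB δ ρ (fun z => Real.exp (F z)) with hAdef
  set B := IB δ ρ (fun z => Real.exp (G z)) with hBdef
  set I := IB δ ρ (fun _ => 1) with hIdef
  have hpt : ∀ z ∈ Bx n δ, Real.exp (F z) * G z * ρ z
      ≤ F z * Real.exp (F z) * ρ z - (Real.log (A / B) + 1) * (Real.exp (F z) * ρ z)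
        + A / B * (Real.exp (G z) * ρ z) := by
    intro z hz
    have h1 := Real.log_le_sub_one_of_pos (x := Real.exp (G z - F z) * (A / B)) (by positivity)
    rw [Real.log_mul (Real.exp_pos _).ne' (div_pos hA hB).ne', Real.log_exp] at h1
    have h2 := mul_le_mul_of_nonneg_left h1
      (mul_pos (Real.exp_pos (F z)) (hρ.r0 z hz)).le
    have h3 : Real.exp (F z) * ρ z * (Real.exp (G z - F z) * (A / B) - 1)
        = A / B * (Real.exp (G z) * ρ z) - Real.exp (F z) * ρ z := by
      have : Real.exp (G z) = Real.exp (F z) * Real.exp (G z - F z) := by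
        rw [← Real.exp_add]; congr 1; ring
      rw [this]; ring
    rw [h3] at h2
    linarith
  have i1 : IntegrableOn (fun z => F z * Real.exp (F z) * ρ z) (Bx n δ) :=
    dv_int ((hF.mul hexpF).mul hρ.rc)
  have i2 : IntegrableOn (fun z => Real.exp (F z) * ρ z) (Bx n δ) := dv_int (hexpF.mul hρ.rc)
  have i3 : IntegrableOn (fun z => Real.exp (G z) * ρ z) (Bx n δ) := dv_int (hexpG.mul hρ.rc)
  have i4 : IntegrableOn (fun z => Real.exp (F z) * G z * ρ z) (Bx n δ) :=
    dv_int ((hexpF.mul hG).mul hρ.rc)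
  have h1 : IB δ ρ (fun z => Real.exp (F z) * G z)
      ≤ IB δ ρ (fun z => F z * Real.exp (F z)) - (Real.log (A / B) + 1) * A + A / B * B := by
    have h2 := setIntegral_mono_on i4 ((i1.sub (i2.const_mul (Real.log (A / B) + 1))).add
      (i3.const_mul (A / B))) (dv_compact n δ).isClosed.measurableSet hpt
    refine h2.trans (le_of_eq ?_)
    rw [integral_add' (i1.sub (i2.const_mul _)) (i3.const_mul _),
      integral_sub' i1 (i2.const_mul _), integral_const_mul, integral_const_mul]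
    rfl
  rw [div_mul_cancel₀ _ hB.ne'] at h1
  unfold En
  rw [← hAdef, ← hIdef, Real.log_div hA.ne' hI.ne', Real.log_div hB.ne' hI.ne']
  rw [Real.log_div hA.ne' hB.ne'] at h1
  linarith

end Pool.Agent.Helper44.GN
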