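import Pool.Agent.Helper44.GN.Defs
import Pool.Agent.Helper4.GN.DV
import Pool.Agent.Helper4.GN.COVR

open Finset MeasureTheory Filter Topology Matrix
open scoped ENNReal ContDiff

namespace Pool.Agent.Helper44.GN

open Pool.Agent.Helper44.GF

theorem fin_pos {n : ℕ} {δ : ℝ} (hδ : 0 < δ) {z : Fin n → ℝ} (hz : z ∈ Bx n δ) (x : Fin n) :
    0 < z x := lt_of_lt_of_le hδ (hz x (Set.mem_univ x)).1

theorem fin_Yv {n : ℕ} {α a δ : ℝ} (ha : 0 < a) (hδ : 0 < δ) {z : Fin n → ℝ}
    (hz : z ∈ Bx n δ) : Yv α a z ∈ Og n := by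
  intro x
  have h1 := fin_pos hδ hz x
  have h2 := Real.rpow_pos_of_pos h1 (-(4 / α))
  unfold Yv yy
  positivity

theorem fin_Yc {n : ℕ} {α a δ : ℝ} (hδ : 0 < δ) :
    ContinuousOn (fun z : Fin n → ℝ => Yv α a z) (Bx n δ) := by
  rw [continuousOn_pi]
  intro x
  unfold Yv yy
  refine continuousOn_const.add (continuousOn_const.mul ?_)
  exact ContinuousOn.rpow_const (continuous_apply x).continuousOn
    fun z hz => Or.inl (fin_pos hδ hz x).ne'

theorem fin_det {n m : ℕ} (V W : Matrix (Fin n) (Fin m) ℝ) :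
    Continuous (fun y : Fin n → ℝ => (TT V W y).det) := by
  unfold TT
  apply Continuous.matrix_det
  apply Continuous.matrix_mul _ continuous_const
  apply Continuous.matrix_mul continuous_const
  exact Continuous.matrix_diagonal continuous_id

theorem fin_wc {n : ℕ} : Continuous (fun z : Fin n → ℝ => wz z) := by
  unfold wz
  fun_prop

theorem fin_qc {n m : ℕ} {α a δ : ℝ} (ha : 0 < a) (hδ : 0 < δ) (V : Matrix (Fin n) (Fin m) ℝ)
    (hV : Function.Injective V.mulVec) (s : ℝ) :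
    ContinuousOn (fun z : Fin n → ℝ => qf V (Yv α a z) ^ s) (Bx n δ) := by
  refine ContinuousOn.rpow_const ((fin_det V V).comp_continuousOn (fin_Yc hδ)) ?_
  intro z hz
  exact Or.inl (covr_qf V hV _ (fin_Yv ha hδ hz)).ne'

theorem st_FIN (hT : ST_THA) (hC : ST_COVR) (hR : ST_REP) (hL : ST_LNK) : ST_FIN := by
  intro m n N α a δ hP hN K F θ hθ hcyc i
  obtain ⟨hR1, hR2, hR3⟩ := hR n (m + 1) N hN
  obtain ⟨C, hC0, hCM⟩ := hL n (m + 1) N α a δ hP hN
  have ha := hP.a0
  have hδ := hP.d0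
  have hδ1 : δ < 1 := by linarith [hP.d1]
  set V : Fin K → Matrix (Fin n) (Fin (m + 1)) ℝ := fun j => (F j).mat with hVdef
  have hVi : ∀ j, Function.Injective (V j).mulVec := fun j => main_injective (F j)
  set W : Fin K → Matrix (Fin (n * N)) (Fin (m + 1)) ℝ := fun j => rp N (V j) with hWdef
  have hWi : ∀ j, Function.Injective (W j).mulVec := fun j => hR1 _ (hVi j)
  set vol : Fin K → ℝ := fun j => (volume (F j).dom).toReal with hvol
  have hvol0 : ∀ j, 0 ≤ vol j := fun j => ENNReal.toReal_nonneg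
  set M : Fin K → ℝ := fun j => ∫ z in Bx (n * N) δ,
    wz z * (qf (W j) (Yv α a z)) ^ (-(1 / 2) : ℝ) with hMdef
  set T : Fin K → ℝ := fun j => ∫ z in Bx (n * N) δ, wz z * |(TT (W i) (W j) (Yv α a z)).det|
        * (qf (W i) (Yv α a z)) ^ (-(3 / 2) : ℝ) with hTdef
  have hwz0 : ∀ z ∈ Bx (n * N) δ, 0 < wz z := by
    intro z hz
    unfold wz
    exact Finset.prod_pos fun x _ => pow_pos (fin_pos hδ hz x) 3
  have hq0 : ∀ j, ∀ z ∈ Bx (n * N) δ, 0 < qf (W j) (Yv α a z) := fun j z hz =>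
    covr_qf (W j) (hWi j) _ (fin_Yv ha hδ hz)
  have hMc : ∀ j, ContinuousOn (fun z : Fin (n * N) → ℝ =>
      wz z * (qf (W j) (Yv α a z)) ^ (-(1 / 2) : ℝ)) (Bx (n * N) δ) := fun j =>
    fin_wc.continuousOn.mul (fin_qc ha hδ (W j) (hWi j) _)
  have hM0 : ∀ j, 0 < M j := fun j => dv_pos hδ1 (hMc j) fun z hz =>
    mul_pos (hwz0 z hz) (Real.rpow_pos_of_pos (hq0 j z hz) _)
  have hMM : ∀ j, M j = C * MM (lamf α a δ N) (V j) := fun j => hCM (V j) (hVi j)
  have hTc : ∀ j, ContinuousOn (fun z : Fin (n * N) → ℝ =>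
      wz z * |(TT (W i) (W j) (Yv α a z)).det|
        * (qf (W i) (Yv α a z)) ^ (-(3 / 2) : ℝ)) (Bx (n * N) δ) := fun j =>
    (fin_wc.continuousOn.mul ((fin_det (W i) (W j)).comp_continuousOn (fin_Yc hδ)).abs).mul
      (fin_qc ha hδ (W i) (hWi i) _)
  -- the integrated covering inequality
  have h1 : vol i * M i ≤ ∑ j ∈ univ.erase i, vol j * T j := by
    have hpt : ∀ z ∈ Bx (n * N) δ,
        vol i * (wz z * (qf (W i) (Yv α a z)) ^ (-(1 / 2) : ℝ))
          ≤ ∑ j ∈ univ.erase i, vol j * (wz z * |(TT (W i) (W j) (Yv α a z)).det|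
            * (qf (W i) (Yv α a z)) ^ (-(3 / 2) : ℝ)) := by
      intro z hz
      have hy := fin_Yv ha hδ hz (α := α)
      have h2 := hC m n K F θ hθ hcyc (Rs N (Yv α a z)) (hR3 _ hy) i
      have h3 : ∀ j, TT (V i) (V j) (Rs N (Yv α a z)) = TT (W i) (W j) (Yv α a z) := fun j =>
        (hR2 (V i) (V j) (Yv α a z)).symm
      have h4 : qf (F i).mat (Rs N (Yv α a z)) = qf (W i) (Yv α a z) := by
        unfold qf
        exact congrArg Matrix.det (h3 i)
      have h5 : ∀ j, (TT (F i).mat (F j).mat (Rs N (Yv α a z))).det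
          = (TT (W i) (W j) (Yv α a z)).det := fun j => congrArg Matrix.det (h3 j)
      rw [h4] at h2
      simp only [h5] at h2
      have hq := hq0 i z hz
      have h6 : (0 : ℝ) ≤ wz z * (qf (W i) (Yv α a z)) ^ (-(3 / 2) : ℝ) :=
        mul_nonneg (hwz0 z hz).le (Real.rpow_pos_of_pos hq _).le
      have h7 := mul_le_mul_of_nonneg_left h2 h6
      have h8 : (qf (W i) (Yv α a z)) ^ (-(1 / 2) : ℝ)
          = (qf (W i) (Yv α a z)) ^ (-(3 / 2) : ℝ) * qf (W i) (Yv α a z) := by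
        rw [← Real.rpow_add_one hq.ne']
        norm_num
      calc vol i * (wz z * (qf (W i) (Yv α a z)) ^ (-(1 / 2) : ℝ))
          = wz z * (qf (W i) (Yv α a z)) ^ (-(3 / 2) : ℝ)
            * (qf (W i) (Yv α a z) * vol i) := by rw [h8]; ring
        _ ≤ _ := h7
        _ = _ := by
          rw [Finset.mul_sum]
          refine Finset.sum_congr rfl fun j _ => ?_
          ring
    have h2 := setIntegral_mono_on ((dv_int (hMc i)).const_mul (vol i))
      (MeasureTheory.integrable_finsetSum (univ.erase i)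
        fun j _ => (dv_int (hTc j)).const_mul (vol j))
      (dv_compact (n * N) δ).isClosed.measurableSet hpt
    rw [integral_const_mul, integral_finsetSum _
      fun j _ => (dv_int (hTc j)).const_mul (vol j)] at h2
    simp only [integral_const_mul] at h2
    exact h2
  have h2 : ∀ j, T j * M j ≤ M i ^ 2 := fun j =>
    hT (n * N) (m + 1) (W i) (W j) α a δ (hWi i) (hWi j) hP
  have h3 : vol i * M i ≤ ∑ j ∈ univ.erase i, vol j * (M i ^ 2 / M j) := by
    refine h1.trans (Finset.sum_le_sum fun j _ => mul_le_mul_of_nonneg_left ?_ (hvol0 j))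
    rw [le_div_iff₀ (hM0 j)]
    exact h2 j
  have h4 : vol i / M i ≤ ∑ j ∈ univ.erase i, vol j / M j := by
    have h5 := mul_le_mul_of_nonneg_left h3 (inv_nonneg.2 (pow_pos (hM0 i) 2).le)
    have e1 : (M i ^ 2)⁻¹ * (vol i * M i) = vol i / M i := by
      have := (hM0 i).ne'
      field_simp
    rw [e1] at h5
    refine h5.trans (le_of_eq ?_)
    rw [Finset.mul_sum]
    refine Finset.sum_congr rfl fun j _ => ?_
    have := (hM0 i).ne'
    have := (hM0 j).ne'
    field_simp
  have hMM0 : ∀ j, 0 < MM (lamf α a δ N) (V j) := by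
    intro j
    have h5 := hM0 j
    rw [hMM j] at h5
    exact (mul_pos_iff_of_pos_left hC0).1 h5
  have h5 : ∀ j, vol j / MM (lamf α a δ N) (V j) = C * (vol j / M j) := by
    intro j
    rw [hMM j]
    have := (hMM0 j).ne'
    have := hC0.ne'
    field_simp
  change vol i / MM (lamf α a δ N) (V i)
    ≤ ∑ j ∈ univ.erase i, vol j / MM (lamf α a δ N) (V j)
  simp only [h5]
  rw [← Finset.mul_sum]
  exact mul_le_mul_of_nonneg_left h4 hC0.le

end Pool.Agent.Helper44.GN
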