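import Pool.Agent.Helper44.GN.Defs

open Finset MeasureTheory Filter Topology Matrix
open scoped ENNReal ContDiff

namespace Pool.Agent.Helper44.GN

open Pool.Agent.Helper44.GF

theorem hb_num : -(714 / 625 : ℝ) ≤ Real.log (8 / 25) := by
  rw [Real.le_log_iff_exp_le (by norm_num), Real.exp_neg]
  have h1 := Real.exp_one_gt_d9
  have h2 : (1 : ℝ) + 89 / 625 + (89 / 625) ^ 2 / 2 ≤ Real.exp (89 / 625) :=
    Real.quadratic_le_exp_of_nonneg (by norm_num)
  have h3 : Real.exp (714 / 625) = Real.exp 1 * Real.exp (89 / 625) := by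
    rw [← Real.exp_add]; norm_num
  rw [h3, inv_le_comm₀ (by positivity) (by norm_num)]
  have h4 : (2.7182818283 : ℝ) * (1 + 89 / 625 + (89 / 625) ^ 2 / 2)
      ≤ Real.exp 1 * Real.exp (89 / 625) :=
    mul_le_mul h1.le h2 (by norm_num) (Real.exp_pos _).le
  refine le_trans ?_ h4
  norm_num

theorem hb_psi (v : ℝ) (hv : v ≤ 17 / 25) : 0 ≤ v + v ^ 2 + Real.log (1 - v) := by
  have hv1 : 0 < 1 - v := by linarith
  rcases le_total v 0 with h0 | h0
  · have h1 := Real.le_log_one_add_of_nonneg (x := -v) (by linarith)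
    have e1 : (1 : ℝ) + -v = 1 - v := by ring
    rw [e1] at h1
    have h2 : -v - v ^ 2 ≤ 2 * -v / (-v + 2) := by
      rw [le_div_iff₀ (by linarith)]
      nlinarith [sq_nonneg v, mul_nonneg (neg_nonneg.2 h0) (sq_nonneg v)]
    linarith
  rcases le_total v (1 / 2) with h1 | h1
  · have h2 : (1 : ℝ) + (v + v ^ 2) + (v + v ^ 2) ^ 2 / 2 ≤ Real.exp (v + v ^ 2) :=
      Real.quadratic_le_exp_of_nonneg (by positivity)
    have h3 : -(v + v ^ 2) ≤ Real.log (1 - v) := by
      rw [Real.le_log_iff_exp_le hv1, Real.exp_neg, inv_le_comm₀ (Real.exp_pos _) hv1]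
      refine le_trans ?_ h2
      rw [inv_le_iff_one_le_mul₀ hv1]
      have h4 : v + v ^ 2 + v ^ 3 ≤ 1 := by nlinarith [sq_nonneg v, mul_nonneg h0 (sq_nonneg v)]
      nlinarith [mul_nonneg (sq_nonneg v) (sub_nonneg.2 h4)]
    linarith
  · set u := (17 / 25 - v) * (25 / 8) with hu
    have hu0 : 0 ≤ u := by rw [hu]; apply mul_nonneg <;> linarith
    have hu1 : u ≤ 9 / 16 := by rw [hu]; linarith
    have hvu : v = 17 / 25 - 8 / 25 * u := by rw [hu]; ring
    have h2 : Real.log (1 - v) = Real.log (8 / 25) + Real.log (1 + u) := by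
      rw [← Real.log_mul (by norm_num) (by linarith)]
      congr 1
      rw [hvu]; ring
    have h3 := Real.le_log_one_add_of_nonneg hu0
    have h4 := hb_num
    have h5 : 472 / 625 * u - 64 / 625 * u ^ 2 ≤ 2 * u / (u + 2) := by
      rw [le_div_iff₀ (by linarith)]
      nlinarith [mul_nonneg hu0 (sq_nonneg u), mul_nonneg hu0 (sub_nonneg.2 hu1), sq_nonneg u]
    rw [h2, hvu]
    nlinarith

theorem st_HB : ST_HB := by
  intro w η hw hη
  have h1 := hb_psi (w / 3) (by linarith)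
  have hv1 : 0 < 1 - w / 3 := by linarith
  have h2 := Real.log_le_sub_one_of_pos (mul_pos hv1 hη)
  rw [Real.log_mul hv1.ne' hη.ne'] at h2
  nlinarith

end Pool.Agent.Helper44.GN
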