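import Pool.Agent.Helper44.GN.Defs

open Finset MeasureTheory Filter Topology Matrix
open scoped ENNReal ContDiff

namespace Pool.Agent.Helper44.GN

open Pool.Agent.Helper44.GF

theorem main_FI (hG : ST_GAM) (h1 : ST_FIN) (h2 : ST_SCL) (h3 : ST_FLM) (h4 : ST_LPT)
    (h5 : ST_LLB) (h6 : ST_LMC) (m n : ℕ) (α : ℝ) (hα : 199 / 200 ≤ α) (hα1 : α < 1)
    (hM : ∀ F : Face (m + 1) n, 0 < MM (fun u => u ^ α) F.mat) : FI m n (fun u => u ^ α) := by
  have ha0 : 0 < (1 - α) / 200 := by linarith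
  set a := (1 - α) / 200 with ha
  obtain ⟨a', b', ha', hb⟩ := h5 α a hα hα1 ha0
  have hJ := (hG α (by linarith) hα1).2
  have hcs : ∀ k : ℕ, 0 < cs α a k := by
    intro k
    unfold cs
    have e1 : 0 < (α * Jg α) ^ (-(1 / α)) :=
      Real.rpow_pos_of_pos (mul_pos (by linarith) hJ) _
    have e2 : 0 < ((k : ℝ) + 1) ^ (-(1 / α)) := Real.rpow_pos_of_pos (by positivity) _
    positivity
  have hk2 : ∀ k : ℕ, 1 / ((k : ℝ) + 2) ≤ 1 / 2 := by
    intro k
    have hk : (0 : ℝ) ≤ k := Nat.cast_nonneg k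
    exact one_div_le_one_div_of_le (by norm_num) (by linarith)
  have hPm : ∀ k : ℕ, Pm α a (1 / ((k : ℝ) + 2)) := fun k =>
    ⟨hα, hα1, ha0, le_rfl, by positivity, hk2 k⟩
  refine h3 m n (fun k u => lamf α a (1 / ((k : ℝ) + 2)) (k + 1) (cs α a k * u))
    (fun u => u ^ α) a' b' ha' ?_ ?_ ?_ hM ?_
  · intro k
    exact h6 α a (1 / ((k : ℝ) + 2)) (cs α a k) (k + 1) (by positivity)
      (by linarith [hk2 k]) ha0 (hcs k)
  · intro k u hu
    exact hb k u hu
  · intro u hu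
    exact h4 α a hα hα1 ha0 u hu
  · intro k
    exact h2 m n _ (cs α a k) (hcs k)
      (h1 m n (k + 1) α a (1 / ((k : ℝ) + 2)) (hPm k) (by omega))

theorem st_MAIN (hH : Pool.Agent.Helper44.GF.ST_HFACE) (hG : ST_GAM) (h1 : ST_FIN)
    (h2 : ST_SCL) (h3 : ST_FLM) (h4 : ST_LPT) (h5 : ST_LLB) (h6 : ST_LMC) : ST_MAIN := by
  intro m n K p hp1 hp2 hfact F θ hθ hcyc i
  obtain ⟨C, hC0, hface⟩ := hH (m + 1) n p (by omega) (by linarith)
  have hcast : ((m + 1 : ℕ) : ℝ) = (m : ℝ) + 1 := by push_cast; ring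
  rw [hcast] at hface
  have hFI := main_FI hG h1 h2 h3 h4 h5 h6 m n (p / 2) (by linarith) (by linarith)
    fun F => (hface F).1
  have h7 := hFI K F θ hθ hcyc i
  set Λ : ℝ → ℝ := fun u => u ^ (p / 2) with hΛ
  set vol : Fin K → ℝ := fun j => (volume (F j).dom).toReal with hvol
  have hvol0 : ∀ j, 0 ≤ vol j := fun j => ENNReal.toReal_nonneg
  have h8 : ∀ j, μH[(m : ℝ) + 1] ((F j).carrier (ENNReal.ofReal p))
      = ENNReal.ofReal (C / MM Λ (F j).mat * vol j) := fun j => (hface (F j)).2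
  simp only [h8]
  rw [← ENNReal.ofReal_sum_of_nonneg]
  · apply ENNReal.ofReal_le_ofReal
    have e1 : ∀ j, C / MM Λ (F j).mat * vol j = C * (vol j / MM Λ (F j).mat) := by
      intro j; ring
    simp only [e1]
    rw [← Finset.mul_sum]
    exact mul_le_mul_of_nonneg_left h7 hC0.le
  · intro j _
    have hMj0 : 0 < MM Λ (F j).mat := (hface (F j)).1
    have := hvol0 j
    positivity

end Pool.Agent.Helper44.GN
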